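import Pool.Agent.Helper55.KV.Base
import Pool.Agent.Helper25.FLT.B3

set_option autoImplicit false
set_option linter.unusedSectionVars false

/-!
# Column counts: no flat level without overlap vectors if `p < 3 a`
-/

namespace Helper25.KV

open Helper11.N1 Helper55.KE Helper55.KV
open Helper11.N1.DECaux (ind ite_ind ind_and ind_congr ind_pos ind_neg)

theorem sum_ind {α : Type*} (s : Finset α) (P : α → Prop) [DecidablePred P] :
    ∑ x ∈ s, ind (P x) = ((s.filter P).card : ℤ) := by
  rw [← Finset.sum_boole]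
  exact Finset.sum_congr rfl fun x _ => (ite_ind (P x)).symm

theorem sum_arc {M : ℕ} [NeZero M] (x : ZMod M) {D : ℕ} (hD : D ≤ M) :
    ∑ S : ZMod M, ind (off x S < D) = (D : ℤ) := by
  classical
  rw [sum_ind]
  have h1 : (Finset.univ.filter fun S : ZMod M => off x S < D) =
      (Finset.range D).image fun t : ℕ => x + (t : ZMod M) := by
    ext S
    rw [Finset.mem_filter, Finset.mem_image]
    constructor
    · rintro ⟨_, h⟩
      exact ⟨off x S, Finset.mem_range.2 h, off_spec x S⟩
    · rintro ⟨t, ht, rfl⟩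
      rw [Finset.mem_range] at ht
      refine ⟨Finset.mem_univ _, ?_⟩
      rw [(off_eq_iff x _ (by omega)).2 rfl]
      exact ht
  rw [h1, Finset.card_image_of_injOn, Finset.card_range]
  intro t ht u hu htu
  rw [Finset.mem_coe, Finset.mem_range] at ht hu
  have h3 : ((t : ℕ) : ZMod M) = (u : ℕ) := add_left_cancel htu
  exact Nat.ModEq.eq_of_lt_of_lt ((ZMod.natCast_eq_natCast_iff t u M).1 h3)
    (by omega) (by omega)

section

variable {p q a b c : ℕ} [NeZero p] [NeZero q] {z : ZMod p → ZMod (p * q)} {i0 ρ : ZMod p}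
  {θ : ZMod (p * q)} {δ l : ℕ} {k : ℤ}

/-- number of columns over the abscissa `X` -/
noncomputable def cnt (q b : ℕ) (z : ZMod p → ZMod (p * q)) (X : ZMod (p * q)) : ℤ :=
  ∑ j : ZMod p, ind (off X (z j) < b * q)

/-- block positions at bounded distance -/
theorem card_blk {x : ZMod (p * q)} {n N : ℕ} (hx : rp p q x = (c : ZMod p))
    (hc : c < p) (hN : N ≤ n * p + c) (hN2 : n * p + c < N + p) (hNM : N ≤ p * q) :
    ∑ X ∈ (Finset.univ.filter fun X : ZMod (p * q) => rp p q X = 0),
      ind (off X x < N) = (n : ℤ) := by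
  classical
  rw [sum_ind, Finset.filter_filter]
  have h1 : (Finset.univ.filter fun X : ZMod (p * q) => rp p q X = 0 ∧ off X x < N) =
      (Finset.range n).image fun i : ℕ => x - ((c + p * i : ℕ) : ZMod (p * q)) := by
    ext X
    rw [Finset.mem_filter, Finset.mem_image]
    constructor
    · rintro ⟨_, h2, h3⟩
      have h4 := off_spec X x
      have h5 := congrArg (rp p q) h4
      rw [map_add, h2, map_natCast, zero_add, hx, ZMod.natCast_eq_natCast_iff] at h5
      have h6 : (off X x) % p = c := by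
        have h6 : (off X x) % p = c % p := h5
        rw [h6, Nat.mod_eq_of_lt hc]
      have h7 := Nat.mod_add_div (off X x) p
      rw [h6] at h7
      refine ⟨off X x / p, ?_, ?_⟩
      · rw [Finset.mem_range]
        by_contra hcon
        push Not at hcon
        have h8 : n * p ≤ p * (off X x / p) := by
          rw [mul_comm n p]
          exact Nat.mul_le_mul_left p hcon
        omega
      · rw [h7]
        exact off_spec' X x
    · rintro ⟨i, hi, rfl⟩
      rw [Finset.mem_range] at hi
      have h2 : p * i + p ≤ n * p := by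
        calc p * i + p = (i + 1) * p := by ring
          _ ≤ n * p := Nat.mul_le_mul_right p (by omega)
      refine ⟨Finset.mem_univ _, ?_, ?_⟩
      · rw [map_sub, hx, map_natCast]
        push_cast
        rw [ZMod.natCast_self]
        ring
      · rw [(off_eq_iff _ x (n := c + p * i) (by omega)).2 (by ring)]
        omega
  rw [h1, Finset.card_image_of_injOn, Finset.card_range]
  intro i hi j hj hij
  rw [Finset.mem_coe, Finset.mem_range] at hi hj
  have h2 : p * i + p ≤ n * p := by
    calc p * i + p = (i + 1) * p := by ring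
      _ ≤ n * p := Nat.mul_le_mul_right p (by omega)
  have h2' : p * j + p ≤ n * p := by
    calc p * j + p = (j + 1) * p := by ring
      _ ≤ n * p := Nat.mul_le_mul_right p (by omega)
  have h3 : ((c + p * i : ℕ) : ZMod (p * q)) = ((c + p * j : ℕ) : ZMod (p * q)) :=
    sub_right_injective hij
  have h4 := Nat.ModEq.eq_of_lt_of_lt ((ZMod.natCast_eq_natCast_iff _ _ _).1 h3)
    (by omega) (by omega)
  have hp0 : 0 < p := Nat.pos_of_ne_zero (NeZero.ne p)
  exact Nat.eq_of_mul_eq_mul_left hp0 (by omega)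

/-- at most two columns -/
theorem cnt_le (h : LS p q a b c z i0 ρ θ δ l k) (h2b : 2 * b < p)
    (hK : KEm p q a b ρ θ l) (h3 : p < 3 * a) {X : ZMod (p * q)} (hX : rp p q X = 0) :
    cnt q b z X ≤ 2 := by
  have hab := h.hP.hab
  have hq1 := h.hP.hq
  have haq : a * q ≤ p * q := Nat.mul_le_mul_right q (by omega)
  have h1 : ∑ S : ZMod (p * q), NN q a b z X S = cnt q b z X * (a * q : ℕ) := by
    have e1 : ∀ S : ZMod (p * q), NN q a b z X S = ∑ j : ZMod p,
      ind (off X (z j) < b * q) * ind (off (sc q z j + 1) S < a * q) := fun S => nn_sum X S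
    rw [Finset.sum_congr rfl fun S _ => e1 S, Finset.sum_comm]
    unfold cnt
    rw [Finset.sum_mul]
    apply Finset.sum_congr rfl
    intro j _
    rw [← Finset.mul_sum, sum_arc _ haq]
  have h2 : ∑ S : ZMod (p * q), NN q a b z X S ≤ ∑ S : ZMod (p * q), (1 : ℤ) :=
    Finset.sum_le_sum fun S _ => nn_le fun i j hi hj => disj_blk h h2b hK hX hi hj
  rw [h1, Finset.sum_const, Finset.card_univ, ZMod.card, nsmul_eq_mul, mul_one] at h2
  by_contra hcon
  push Not at hcon
  have h4 : (3 : ℤ) * (a * q : ℕ) ≤ cnt q b z X * (a * q : ℕ) :=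
    mul_le_mul_of_nonneg_right (by omega) (by positivity)
  have h5 : (p + 1) * q ≤ 3 * a * q := Nat.mul_le_mul_right q (by omega)
  have h6 : (3 : ℤ) * (a * q : ℕ) ≤ ((p * q : ℕ) : ℤ) := le_trans h4 h2
  have h7 : 3 * (a * q) ≤ p * q := by exact_mod_cast h6
  have h8 : (p + 1) * q = p * q + q := by ring
  have h9 : 3 * a * q = 3 * (a * q) := by ring
  omega

/-- a right side without partner lowers the count -/
theorem cnt_drop (h : LS p q a b c z i0 ρ θ δ l k) {n : ℕ}
    (hn : ∀ m : ℕ, m < p → ¬ Mg b c θ n m) (hnp : n < p) :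
    cnt q b z (bx q c z (i0 + (n : ZMod p) * ρ) + (p : ZMod (p * q))) ≤
      cnt q b z (bx q c z (i0 + (n : ZMod p) * ρ)) - 1 := by
  have hX := bx_rp (q := q) h.hB (i0 + (n : ZMod p) * ρ)
  generalize hX0 : bx q c z (i0 + (n : ZMod p) * ρ) = X at *
  have h1 : cnt q b z (X + (p : ZMod (p * q))) - cnt q b z X =
      ∑ j : ZMod p, ind (byy q b c z j = X) - ∑ j : ZMod p, ind (bx q c z j = X) := by
    unfold cnt
    rw [← Finset.sum_sub_distrib, ← Finset.sum_sub_distrib]
    exact Finset.sum_congr rfl fun j _ => jblock h.hP h.hB hX j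
  have h2 : ∑ j : ZMod p, ind (byy q b c z j = X) = 0 := by
    apply Finset.sum_eq_zero
    intro j _
    obtain ⟨m, hm, rfl⟩ := ap_row h.hAP j
    apply ind_neg
    rw [← hX0]
    intro h3
    apply hn m hm
    have g1 := h.hAP.2 m hm
    have g2 := h.hAP.2 n hnp
    unfold byy bx at h3
    unfold Mg
    rw [g1, g2] at h3
    linear_combination h3
  have h3 : 1 ≤ ∑ j : ZMod p, ind (bx q c z j = X) := by
    have h4 : ind (bx q c z (i0 + (n : ZMod p) * ρ) = X) = 1 := ind_pos hX0
    rw [← h4]
    refine Finset.single_le_sum (f := fun j => ind (bx q c z j = X)) (fun j _ => ?_)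
      (Finset.mem_univ _)
    by_cases h5 : bx q c z j = X
    · rw [ind_pos h5]; norm_num
    · rw [ind_neg h5]
  linarith

theorem cnt_false (h : LS p q a b c z i0 ρ θ δ l k) (h2b : 2 * b < p)
    (hK : KEm p q a b ρ θ l) (hl2 : 2 ≤ l) (h3 : p < 3 * a) : False := by
  classical
  have hP := h.hP
  have ha := hP.ha
  have hb := hP.hb
  have hab := hP.hab
  have hc := h.hB.hc
  have hl := h.hl
  have hpq := h.hpq
  have hq1 := hP.hq
  -- two unpaired right sides
  have noR : ∀ n : ℕ, n < l → p + l ≤ q + n → ∀ m : ℕ, m < p → ¬ Mg b c θ n m := by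
    intro n hn hq m hm hM
    have h1 : ((m + l - n : ℤ) : ZMod (p * q)) * θ = 0 := by
      unfold Mg at hM
      have h3 := h.hxl
      have h4 := h.castc
      push_cast at h3 h4 ⊢
      linear_combination hM + h3 - h4
    have h2 := congrArg (res p q) h1
    have h3 : ¬ (q : ℤ) ∣ (m + l - n : ℤ) := by
      intro h4
      have := Int.le_of_dvd (by omega) h4
      omega
    have h4 := h.ndvd (X := 0) (m := (m + l - n : ℤ)) (by
      rw [map_zero, map_mul] at h2
      rw [Int.cast_zero, ← h2]
      push_cast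
      rw [map_sub, map_add, map_natCast, map_natCast, map_natCast]) h3
    exact h4 ⟨0, by ring⟩
  have hq2 : p + 2 ≤ q := by
    by_contra hcon
    have e1 : q = p + 1 := by omega
    have h1 := FLT.LS.bq h
    rw [e1] at h1
    push_cast at h1
    rw [ZMod.natCast_self, zero_add, mul_one] at h1
    rcases h.eps with ⟨h2, _⟩ | ⟨h2, _⟩
    · have h4 : ((b + 1 : ℕ) : ZMod p) = 0 := by
        have h5 : (1 - 2 * (c : ZMod p)) = 1 := by exact_mod_cast congrArg (Int.cast (R := ZMod p)) h2
        push_cast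
        rw [h1, h5]
        ring
      rw [ZMod.natCast_eq_zero_iff] at h4
      have := Nat.le_of_dvd (by omega) h4
      omega
    · have h4 : ((b - 1 : ℕ) : ZMod p) = 0 := by
        have h5 : (1 - 2 * (c : ZMod p)) = -1 := by
          exact_mod_cast congrArg (Int.cast (R := ZMod p)) h2
        rw [Nat.cast_sub (by omega), h1, h5]
        ring
      rw [ZMod.natCast_eq_zero_iff] at h4
      have := Nat.le_of_dvd (by omega) h4
      omega
  obtain ⟨n1, n2, hn12, hn1, hn2, hq1', hq2'⟩ : ∃ n1 n2 : ℕ, n1 < n2 ∧ n1 < l ∧ n2 < l ∧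
      p + l ≤ q + n1 ∧ p + l ≤ q + n2 := by
    by_cases hqq : p + l ≤ q
    · exact ⟨0, 1, by omega, by omega, by omega, by omega, by omega⟩
    · exact ⟨p + l - q, p + l - q + 1, by omega, by omega, by omega, by omega, by omega⟩
  set BP := Finset.univ.filter fun X : ZMod (p * q) => rp p q X = 0 with hBP
  have hle : ∀ X ∈ BP, 0 ≤ 2 - cnt q b z X := by
    intro X hX
    rw [hBP, Finset.mem_filter] at hX
    have := cnt_le h h2b hK h3 hX.2
    omega
  set r1 := i0 + (n1 : ZMod p) * ρ with hr1
  set r2 := i0 + (n2 : ZMod p) * ρ with hr2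
  have hne : bx q c z r1 + (p : ZMod (p * q)) ≠ bx q c z r2 + (p : ZMod (p * q)) := by
    intro h1
    have h2 : z r1 = z r2 := by
      unfold bx at h1
      linear_combination h1
    have h3' := gen_res p q h.hG (congrArg (res p q) h2)
    rw [hr1, hr2] at h3'
    obtain ⟨u, hu⟩ := h.hAP.1
    have h4 : (n1 : ZMod p) = n2 := by
      have h5 : ((n1 : ZMod p) - n2) * ρ = 0 := by linear_combination h3'
      rw [← hu] at h5
      have h6 := (Units.mul_left_eq_zero u).1 h5
      exact sub_eq_zero.1 h6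
    have := nat_ne (by omega) (by omega) h4
    omega
  have hm : ∀ n : ℕ, n < l → p + l ≤ q + n →
      bx q c z (i0 + (n : ZMod p) * ρ) + (p : ZMod (p * q)) ∈ BP ∧
      1 ≤ 2 - cnt q b z (bx q c z (i0 + (n : ZMod p) * ρ) + (p : ZMod (p * q))) := by
    intro n hn hq
    have g1 := bx_rp (q := q) h.hB (i0 + (n : ZMod p) * ρ)
    have g2 := cnt_drop h (noR n hn hq) (by omega)
    have g3 := cnt_le h h2b hK h3 g1
    refine ⟨?_, by omega⟩
    rw [hBP, Finset.mem_filter]
    exact ⟨Finset.mem_univ _, rp_add_p g1⟩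
  obtain ⟨m1, m1'⟩ := hm n1 hn1 hq1'
  obtain ⟨m2, m2'⟩ := hm n2 hn2 hq2'
  rw [← hr1] at m1 m1'
  rw [← hr2] at m2 m2'
  have hsub : ({bx q c z r1 + (p : ZMod (p * q)), bx q c z r2 + (p : ZMod (p * q))} :
      Finset (ZMod (p * q))) ⊆ BP := by
    intro X hX
    rw [Finset.mem_insert, Finset.mem_singleton] at hX
    rcases hX with rfl | rfl
    · exact m1
    · exact m2
  have hsum : 2 ≤ ∑ X ∈ BP, (2 - cnt q b z X) := by
    refine le_trans ?_ (Finset.sum_le_sum_of_subset_of_nonneg hsub fun X hX _ => hle X hX)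
    rw [Finset.sum_pair hne]
    omega
  -- the total
  obtain ⟨β, hβ⟩ : ∃ β : ℕ, (β : ℤ) * p = b * q + (1 - 2 * c) := by
    have h1 := FLT.LS.bq h
    have h2 : (((b * q + (1 - 2 * c) : ℤ)) : ZMod p) = 0 := by
      push_cast at h1 ⊢
      rw [h1]
      ring
    rw [ZMod.intCast_zmod_eq_zero_iff_dvd] at h2
    obtain ⟨t, ht⟩ := h2
    have h4 : 0 ≤ t := by
      by_contra hcon
      push Not at hcon
      have h5 : (p : ℤ) * t ≤ p * (-1) := mul_le_mul_of_nonneg_left (by omega) (by omega)
      have h6 : (0 : ℤ) ≤ b * q := by positivity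
      omega
    refine ⟨t.toNat, ?_⟩
    rw [Int.toNat_of_nonneg h4, ht]
    ring
  have hbqle : b * q + q ≤ p * q := by
    calc b * q + q = (b + 1) * q := by ring
      _ ≤ p * q := Nat.mul_le_mul_right q (by omega)
  have hβn : (β : ℤ) * p + 2 * c = b * q + 1 := by linarith
  have hβn' : β * p + 2 * c = b * q + 1 := by exact_mod_cast hβn
  have htot : ∑ X ∈ BP, cnt q b z X = (p : ℤ) * β := by
    unfold cnt
    rw [Finset.sum_comm, Finset.sum_congr rfl fun j _ => card_blk (n := β) (h.hB.hx j) (by omega)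
      (N := b * q) (by omega) (by omega) (by omega), Finset.sum_const, Finset.card_univ, ZMod.card,
      nsmul_eq_mul]
  have hcard : ∑ X ∈ BP, (2 : ℤ) = 2 * q := by
    have h1 := card_blk (p := p) (q := q) (x := 0) (c := 0) (n := q) (N := p * q)
      (by rw [map_zero, Nat.cast_zero]) (by omega) (by rw [mul_comm]; omega)
      (by rw [mul_comm q p]; omega) le_rfl
    have h2 : ∀ X ∈ BP, ind (off X (0 : ZMod (p * q)) < p * q) = 1 := fun X _ => ind_pos (off_lt _ _)
    rw [Finset.sum_congr rfl h2, Finset.sum_const, nsmul_eq_mul, mul_one] at h1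
    rw [Finset.sum_const, nsmul_eq_mul, h1]
    ring
  rw [Finset.sum_sub_distrib, htot, hcard] at hsum
  have h2q : 2 * q ≤ b * q := Nat.mul_le_mul_right q hb
  have h2q' : (2 : ℤ) * q ≤ b * q := by exact_mod_cast h2q
  have : (p : ℤ) * β = β * p := by ring
  omega

end

end Helper25.KV
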